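import Pool.Agent.Q11.EU.Cert
import Pool.Agent.Q11.EU.Phi

/-!
# The operator `[x_{n+1}, x_{n+2}] E` is not injective on the lower central series quotients

The element `f = x₁x₁x₂x₁x₂ - x₁x₁x₂x₂x₁ - x₁x₂x₁x₁x₂ + x₁x₂x₂x₁x₁ + x₂x₁x₁x₂x₁ - x₂x₁x₂x₁x₁` of
multidegree `(3, 2)` lies in `L 4`, it does not lie in `L 5`, and its image under the derivation lies
in `L 5` (an explicit combination of 171 commutators of five words).
-/

set_option autoImplicit false

namespace Pool.Agent.Results.MP_540755_al.NotInjective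

open Pool.Agent.Q11.EU

/-- The free associative algebra on `m` generators over the complex numbers. -/
def A (m : ℕ) : Type := FreeAlgebra ℂ (Fin m)

noncomputable instance (m : ℕ) : Ring (A m) := inferInstanceAs (Ring (FreeAlgebra ℂ (Fin m)))

noncomputable instance (m : ℕ) : Algebra ℂ (A m) :=
  inferInstanceAs (Algebra ℂ (FreeAlgebra ℂ (Fin m)))

/-- The generators of `A m`. -/
noncomputable def X {m : ℕ} (i : Fin m) : A m := FreeAlgebra.ι ℂ i

/-- The lower central series of `A m` as a Lie algebra: `L m 1 = A m`, and `L m (k + 1)` is the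
linear span of the commutators `a * b - b * a` with `a` in `A m` and `b` in `L m k`, for `k ≥ 1`.
(`L m 0` is not used.) -/
noncomputable def L (m : ℕ) : ℕ → Submodule ℂ (A m)
  | 0 => ⊤
  | 1 => ⊤
  | k + 2 => Submodule.span ℂ {z | ∃ a : A m, ∃ b ∈ L m (k + 1), z = a * b - b * a}

/-- `L m (k + 1)` as a subspace of `L m k` (their intersection, to be precise). -/
noncomputable def LSub (m k : ℕ) : Submodule ℂ (L m k) := (L m (k + 1)).submoduleOf (L m k)

/-- `B m k = L m k / L m (k + 1)`. -/
def B (m k : ℕ) : Type := (L m k) ⧸ LSub m k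

noncomputable instance (m k : ℕ) : AddCommGroup (B m k) :=
  inferInstanceAs (AddCommGroup ((L m k) ⧸ LSub m k))

noncomputable instance (m k : ℕ) : Module ℂ (B m k) :=
  inferInstanceAs (Module ℂ ((L m k) ⧸ LSub m k))

/-- The class of an element of `L m k` in `B m k`. -/
noncomputable def cls (m k : ℕ) : L m k →ₗ[ℂ] B m k := (LSub m k).mkQ

/-- The part of `A m` of multidegree `p`: the span of the words in which the `i`-th generator occurs
`p i` times, for every `i`. -/
noncomputable def ADeg (m : ℕ) (p : Fin m → ℕ) : Submodule ℂ (A m) :=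
  Submodule.span ℂ {z | ∃ w : List (Fin m), (∀ i, w.count i = p i) ∧ z = (w.map X).prod}

/-- The part of `B m k` of multidegree `p`: the classes of the elements of `L m k` of multidegree
`p`. -/
noncomputable def BDeg (m k : ℕ) (p : Fin m → ℕ) : Submodule ℂ (B m k) :=
  ((ADeg m p).submoduleOf (L m k)).map (cls m k)

/-- `[x_{n+1}, x_{n+2}]` (the generators of `A (n + 2)` are `x_1, …, x_{n+2}`, numbered from `0`
in Lean). -/
noncomputable def z (n : ℕ) : A (n + 2) :=
  X (Fin.natAdd n (0 : Fin 2)) * X (Fin.natAdd n (1 : Fin 2)) -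
  X (Fin.natAdd n (1 : Fin 2)) * X (Fin.natAdd n (0 : Fin 2))

/-- The derivations of `A (n + 2)` with `δ x_i = [x_{n+1}, x_{n+2}] x_i` for all `i` (there is
exactly one). -/
structure Euler (n : ℕ) where
  /-- the linear map -/
  toLin : A (n + 2) →ₗ[ℂ] A (n + 2)
  leibniz : ∀ x y, toLin (x * y) = toLin x * y + x * toLin y
  gen : ∀ i, toLin (X i) = z n * X i

theorem map_L {n : ℕ} (δ : Euler n) (k : ℕ) :
    ∀ x ∈ L (n + 2) k, δ.toLin x ∈ L (n + 2) k := by
  induction k with
  | zero => intro x _; trivial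
  | succ k ih =>
    cases k with
    | zero => intro x _; trivial
    | succ k =>
      intro x hx
      refine Submodule.span_induction (p := fun x _ => δ.toLin x ∈ L (n + 2) (k + 2)) ?_ ?_ ?_ ?_ hx
      · rintro _ ⟨u, v, hv, rfl⟩
        have e : δ.toLin (u * v - v * u) = (δ.toLin u * v - v * δ.toLin u) +
            (u * δ.toLin v - δ.toLin v * u) := by
          rw [map_sub, δ.leibniz, δ.leibniz]; abel
        rw [e]
        exact add_mem (Submodule.subset_span ⟨_, _, hv, rfl⟩)
          (Submodule.subset_span ⟨_, _, ih v hv, rfl⟩)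
      · rw [map_zero]; exact zero_mem _
      · intro x y _ _ hx hy; rw [map_add]; exact add_mem hx hy
      · intro c x _ hx; rw [map_smul]; exact Submodule.smul_mem _ c hx

/-- the restriction of the derivation to `L_k` -/
noncomputable def restr {n : ℕ} (δ : Euler n) (k : ℕ) : L (n + 2) k →ₗ[ℂ] L (n + 2) k :=
  δ.toLin.restrict (map_L δ k)

theorem le_comap {n : ℕ} (δ : Euler n) (k : ℕ) :
    LSub (n + 2) k ≤ (LSub (n + 2) k).comap (restr δ k) :=
  fun x hx => map_L δ (k + 1) x.1 hx

/-- the operator `D` induced by the derivation on `B_k` -/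
noncomputable def D {n : ℕ} (δ : Euler n) (k : ℕ) : B (n + 2) k →ₗ[ℂ] B (n + 2) k :=
  Submodule.mapQ (LSub (n + 2) k) (LSub (n + 2) k) (restr δ k) (le_comap δ k)

/-- the part of `B_k(A_{n+2})` of multidegree `(d_1, …, d_n, 0, 0)` -/
noncomputable def Part (n k : ℕ) (d : Fin n → ℕ) : Submodule ℂ (B (n + 2) k) :=
  BDeg (n + 2) k (Fin.append d ![0, 0])

/-- The statement in question: for all `k ≥ 2`, `n ≥ 1` and `d`, the operator `D` is injective on
the part of `B_k(A_{n+2})` of multidegree `(d_1, …, d_n, 0, 0)`. -/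
def Statement : Prop := ∀ k n : ℕ, 2 ≤ k → 1 ≤ n → ∀ d : Fin n → ℕ,
  ∀ δ : Euler n, Set.InjOn (D δ k) (Part n k d)

/-- the multidegree `(3, 2, 0, …, 0)` -/
def dd (n : ℕ) (i : Fin n) : ℕ := if i.val = 0 then 3 else if i.val = 1 then 2 else 0

/-! ### Existence and uniqueness of the derivation -/

theorem euler_one {n : ℕ} (δ : Euler n) : δ.toLin 1 = 0 := by
  have h1 := δ.leibniz 1 1
  rw [mul_one, mul_one, one_mul] at h1
  exact left_eq_add.1 h1

theorem hom_ext {m : ℕ} {R : Type*} [Ring R] [Algebra ℂ R] {f g : A m →ₐ[ℂ] R}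
    (h : ∀ i, f (X i) = g (X i)) : f = g :=
  FreeAlgebra.hom_ext (funext h)

/-- the homomorphism given by the values at the generators -/
noncomputable def lift {m : ℕ} {R : Type*} [Ring R] [Algebra ℂ R] (f : Fin m → R) : A m →ₐ[ℂ] R :=
  FreeAlgebra.lift ℂ f

theorem lift_X {m : ℕ} {R : Type*} [Ring R] [Algebra ℂ R] (f : Fin m → R) (i : Fin m) :
    lift f (X i) = f i := FreeAlgebra.lift_ι_apply f i

theorem euler_unique {n : ℕ} (δ ε : Euler n) : δ = ε := by
  have h : δ.toLin = ε.toLin := by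
    apply LinearMap.ext
    intro x
    refine FreeAlgebra.induction ℂ (Fin (n + 2)) (motive := fun x => δ.toLin x = ε.toLin x)
      ?_ ?_ ?_ ?_ x
    · intro r
      change δ.toLin (algebraMap ℂ (A (n + 2)) r) = ε.toLin (algebraMap ℂ (A (n + 2)) r)
      rw [Algebra.algebraMap_eq_smul_one, map_smul, map_smul, euler_one, euler_one]
    · intro i
      change δ.toLin (X i) = ε.toLin (X i)
      rw [δ.gen, ε.gen]
    · intro a b ha hb
      have h1 := δ.leibniz a b
      have h2 := ε.leibniz a b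
      rw [ha, hb, ← h2] at h1
      exact h1
    · intro a b ha hb
      exact (map_add δ.toLin a b).trans ((congrArg₂ (fun (x y : A (n + 2)) => x + y) ha hb).trans
        (map_add ε.toLin a b).symm)
  cases δ; cases ε
  simp only at h
  subst h
  rfl

/-- the derivation -/
noncomputable def euler (n : ℕ) : Euler n := by
  let F : A (n + 2) →ₐ[ℂ] TrivSqZeroExt (A (n + 2)) (A (n + 2)) :=
    lift fun i => TrivSqZeroExt.inl (X i) + TrivSqZeroExt.inr (z n * X i)
  have hF : ∀ x, (F x).fst = x := by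
    intro x
    have : (TrivSqZeroExt.fstHom ℂ (A (n + 2)) (A (n + 2))).comp F = AlgHom.id ℂ _ := by
      apply hom_ext
      intro i
      simp [F, lift_X]
    exact congrArg (fun f => f x) this
  refine ⟨(TrivSqZeroExt.sndHom (A (n + 2)) (A (n + 2))).restrictScalars ℂ ∘ₗ F.toLinearMap,
    ?_, ?_⟩
  · intro x y
    simp [hF, add_comm]
  · intro i
    simp [F, lift_X]

/-! ### The element and its image -/

/-- the four generators `x_1, x_2, x_{n+1}, x_{n+2}` -/
noncomputable def g (n : ℕ) (hn : 2 ≤ n) (i : Fin 4) : A (n + 2) :=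
  X (if h : i.val < 2 then Fin.castAdd 2 ⟨i.val, by omega⟩
    else Fin.natAdd n ⟨i.val - 2, by omega⟩)

theorem z_eq (n : ℕ) (hn : 2 ≤ n) : z n = g n hn 2 * g n hn 3 - g n hn 3 * g n hn 2 := by
  simp [z, g]

theorem ev_dW {n : ℕ} (hn : 2 ≤ n) (δ : Euler n)
    (l : List (Fin 4)) : ev (g n hn) (dW l) = δ.toLin (wd (g n hn) l) := by
  induction l with
  | nil => simp [dW, euler_one δ]
  | cons a l ih =>
    have hm : ev (g n hn) ((dW l).map (fun t => (t.1, a :: t.2))) =
        g n hn a * ev (g n hn) (dW l) := by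
      have := ev_map_left (g n hn) [a] (dW l)
      simpa using this
    have hz : δ.toLin (g n hn a) = z n * g n hn a := δ.gen _
    rw [dW, ev_cons, ev_cons, hm, ih, wd_cons (g n hn) a l, δ.leibniz, hz, z_eq n hn]
    simp only [wd_cons]
    push_cast
    rw [one_smul, neg_smul, one_smul]
    noncomm_ring

theorem ev_negD {n : ℕ} (hn : 2 ≤ n) (δ : Euler n)
    (p : Pl) : ev (g n hn) (p.flatMap negD) = -((2 : ℂ) • δ.toLin (ev (g n hn) p)) := by
  induction p with
  | nil => simp
  | cons a q ih =>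
    have hc : ∀ (c : ℤ) (r : Pl), ev (g n hn) (r.map (fun s => (-(2 * (c * s.1)), s.2))) =
        -((2 : ℂ) • ((c : ℂ) • ev (g n hn) r)) := by
      intro c r
      induction r with
      | nil => simp
      | cons b r ih =>
        rw [List.map_cons, ev_cons, ev_cons, ih]
        simp only [smul_add, smul_smul, neg_add]
        congr 1
        rw [← neg_smul]
        push_cast
        congr 1
    rw [List.flatMap_cons, ev_append, ih, ev_cons, map_add, map_smul, negD, hc, ev_dW hn δ,
      smul_add, neg_add]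

theorem mem_span {m k : ℕ} (a b : A m) (hb : b ∈ L m (k + 1)) : cm a b ∈ L m (k + 2) :=
  Submodule.subset_span ⟨a, b, hb, rfl⟩

theorem gen_mem {m : ℕ} (e : Fin 4 → A m) (t : Ct) : ev e (gen t) ∈ L m 5 := by
  rw [ev_gen]
  exact mem_span _ _ (mem_span _ _ (mem_span _ _ (mem_span _ _ trivial)))

theorem gens_mem {m : ℕ} (e : Fin 4 → A m) (c : List Ct) : ev e (c.flatMap gen) ∈ L m 5 := by
  induction c with
  | nil => simp
  | cons a q ih => rw [List.flatMap_cons, ev_append]; exact add_mem (gen_mem e a) ih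

theorem image_mem {n : ℕ} (hn : 2 ≤ n) (δ : Euler n) :
    δ.toLin (ev (g n hn) fP) ∈ L (n + 2) 5 := by
  have h0 := ev_eq_zero (g n hn) _ check
  rw [ev_append, ev_negD hn δ, ← sub_eq_add_neg, sub_eq_zero] at h0
  have h1 := gens_mem (g n hn) cert
  rw [h0] at h1
  have h2 := Submodule.smul_mem _ ((2 : ℂ)⁻¹) h1
  rwa [smul_smul, inv_mul_cancel₀ two_ne_zero, one_smul] at h2

/-- the element, as an expression in two variables -/
def fE {R : Type*} [Ring R] (a b : R) : R :=
  a * (a * (b * (a * b))) - a * (a * (b * (b * a))) - a * (b * (a * (a * b))) +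
    a * (b * (b * (a * a))) + b * (a * (a * (b * a))) - b * (a * (b * (a * a)))

theorem ev_fP {m : ℕ} (e : Fin 4 → A m) : ev e fP = fE (e 0) (e 1) := by
  simp only [fP, ev_cons, ev_nil, wd_cons, wd_nil, fE]
  push_cast
  simp only [one_smul, neg_smul, mul_one]
  noncomm_ring

theorem two_fE {R : Type*} [Ring R] (a b : R) : fE a b + fE a b =
    cm (a * a) (cm b (cm a b)) - cm a (cm b (cm (a * a) b)) := by
  unfold fE cm; noncomm_ring

theorem fE_mem {m : ℕ} (a b : A m) : fE a b ∈ L m 4 := by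
  have h1 : cm (a * a) (cm b (cm a b)) - cm a (cm b (cm (a * a) b)) ∈ L m 4 :=
    sub_mem (mem_span _ _ (mem_span _ _ (mem_span _ _ trivial)))
      (mem_span _ _ (mem_span _ _ (mem_span _ _ trivial)))
  rw [← two_fE, ← two_smul ℂ] at h1
  have h2 := Submodule.smul_mem _ ((2 : ℂ)⁻¹) h1
  rwa [smul_smul, inv_mul_cancel₀ two_ne_zero, one_smul] at h2

/-! ### The functional -/

/-- the basis of words -/
noncomputable def bas : Module.Basis (FreeMonoid (Fin 2)) ℂ (A 2) :=
  FreeAlgebra.basisFreeMonoid ℂ (Fin 2)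

/-- the functional on `A 2` given by its values at the words -/
noncomputable def lin (F : List (Fin 2) → ℤ) : A 2 →ₗ[ℂ] ℂ :=
  bas.constr ℂ (fun w => ((F w.toList : ℤ) : ℂ))

/-- a word in `A 2` -/
noncomputable def word (l : List (Fin 2)) : A 2 := (l.map X).prod

theorem word_append (l m : List (Fin 2)) : word (l ++ m) = word l * word m := by
  simp [word]

theorem basis_eq (w : FreeMonoid (Fin 2)) : bas w = word w.toList := by
  have h : FreeAlgebra.basisFreeMonoid ℂ (Fin 2) w =
      (w.toList.map (FreeAlgebra.ι ℂ)).prod := by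
    simp [FreeAlgebra.basisFreeMonoid, FreeAlgebra.equivMonoidAlgebraFreeMonoid,
      FreeMonoid.lift_apply]
  exact h

theorem lin_word (F : List (Fin 2) → ℤ) (l : List (Fin 2)) : lin F (word l) = (F l : ℤ) := by
  have h := basis_eq (FreeMonoid.ofList l)
  rw [FreeMonoid.toList_ofList] at h
  rw [← h]
  exact bas.constr_basis ℂ _ (FreeMonoid.ofList l)

theorem word_span (x : A 2) : x ∈ Submodule.span ℂ (Set.range word) := by
  have h : Set.range word = Set.range bas := by
    ext y
    constructor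
    · rintro ⟨l, rfl⟩; exact ⟨FreeMonoid.ofList l, by rw [basis_eq, FreeMonoid.toList_ofList]⟩
    · rintro ⟨w, rfl⟩; exact ⟨w.toList, by rw [basis_eq]⟩
  rw [h, bas.span_eq]
  trivial

theorem lin_cm (F : List (Fin 2) → ℤ) (u : List (Fin 2)) (x : A 2) :
    lin F (word u * x - x * word u) = lin (br F u) x := by
  refine Submodule.span_induction (p := fun x _ => lin F (word u * x - x * word u) =
    lin (br F u) x) ?_ ?_ ?_ ?_ (word_span x)
  · rintro _ ⟨l, rfl⟩
    rw [← word_append, ← word_append, map_sub, lin_word, lin_word, lin_word, br]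
    push_cast; rfl
  · simp
  · intro x y _ _ hx hy
    rw [map_add, ← hx, ← hy, ← map_add]; congr 1; noncomm_ring
  · intro c x _ hx
    rw [map_smul, ← hx, ← map_smul]; congr 1
    rw [mul_smul_comm, smul_mul_assoc, smul_sub]

theorem kill_succ (k : ℕ) (F : List (Fin 2) → ℤ)
    (h : ∀ u, ∀ x ∈ L 2 (k + 1), lin (br F u) x = 0) : ∀ x ∈ L 2 (k + 2), lin F x = 0 := by
  intro x hx
  refine Submodule.span_induction (p := fun x _ => lin F x = 0) ?_ ?_ ?_ ?_ hx
  · rintro _ ⟨a, b, hb, rfl⟩
    refine Submodule.span_induction (p := fun a _ => lin F (a * b - b * a) = 0) ?_ ?_ ?_ ?_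
      (word_span a)
    · rintro _ ⟨u, rfl⟩
      rw [lin_cm]; exact h u b hb
    · simp
    · intro x y _ _ hx hy
      have e : (x + y) * b - b * (x + y) = (x * b - b * x) + (y * b - b * y) := by noncomm_ring
      rw [e, map_add, hx, hy, add_zero]
    · intro c x _ hx
      rw [mul_smul_comm, smul_mul_assoc, ← smul_sub, map_smul, hx, smul_zero]
  · simp
  · intro x y _ _ hx hy; rw [map_add, hx, hy, add_zero]
  · intro c x _ hx; rw [map_smul, hx, smul_zero]

theorem kill_one (F : List (Fin 2) → ℤ) (h : ∀ w, F w = 0) : ∀ x ∈ L 2 1, lin F x = 0 := by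
  intro x _
  refine Submodule.span_induction (p := fun x _ => lin F x = 0) ?_ ?_ ?_ ?_ (word_span x)
  · rintro _ ⟨u, rfl⟩
    rw [lin_word, h]; simp
  · simp
  · intro x y _ _ hx hy; rw [map_add, hx, hy, add_zero]
  · intro c x _ hx; rw [map_smul, hx, smul_zero]

theorem phi_kill : ∀ x ∈ L 2 5, lin phi x = 0 :=
  kill_succ 3 _ fun u => kill_succ 2 _ fun v => kill_succ 1 _ fun w => kill_succ 0 _ fun x =>
    kill_one _ fun y => br5 u v w x y

theorem phi_fE : lin phi (fE (X 0) (X 1)) = 2 := by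
  have h : ∀ i j k l m : Fin 2, X i * (X j * (X k * (X l * X m))) = word [i, j, k, l, m] := by
    intro i j k l m; simp [word]
  simp only [fE, h, map_add, map_sub, lin_word]
  have e : phi [0, 0, 1, 0, 1] - phi [0, 0, 1, 1, 0] - phi [0, 1, 0, 0, 1] + phi [0, 1, 1, 0, 0] +
    phi [1, 0, 0, 1, 0] - phi [1, 0, 1, 0, 0] = 2 := by decide +kernel
  exact_mod_cast e

theorem map_hom {m n : ℕ} (r : A m →ₐ[ℂ] A n) (k : ℕ) : ∀ x ∈ L m k, r x ∈ L n k := by
  induction k with
  | zero => intro x _; trivial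
  | succ k ih =>
    cases k with
    | zero => intro x _; trivial
    | succ k =>
      intro x hx
      refine Submodule.span_induction (p := fun x _ => r x ∈ L n (k + 2)) ?_ ?_ ?_ ?_ hx
      · rintro _ ⟨u, v, hv, rfl⟩
        exact Submodule.subset_span ⟨r u, r v, ih v hv, by rw [map_sub, map_mul, map_mul]⟩
      · rw [map_zero]; exact zero_mem _
      · intro x y _ _ hx hy; rw [map_add]; exact add_mem hx hy
      · intro c x _ hx; rw [map_smul]; exact Submodule.smul_mem _ c hx

/-- the projection onto the free algebra on two generators -/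
noncomputable def pr (n : ℕ) : A (n + 2) →ₐ[ℂ] A 2 :=
  lift (fun i : Fin (n + 2) => if h : i.val < 2 then (X (⟨i.val, h⟩ : Fin 2) : A 2) else 0)

theorem not_mem {n : ℕ} (hn : 2 ≤ n) : ev (g n hn) fP ∉ L (n + 2) 5 := by
  intro h
  have h1 := phi_kill _ (map_hom (pr n) 5 _ h)
  have e0 : pr n (g n hn 0) = X 0 := by simp [pr, g, lift_X]
  have e1 : pr n (g n hn 1) = X 1 := by simp [pr, g, lift_X]
  have e : pr n (ev (g n hn) fP) = fE (X 0) (X 1) := by
    rw [ev_fP, ← e0, ← e1]
    simp only [fE, map_add, map_sub, map_mul]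
  rw [e, phi_fE] at h1
  exact two_ne_zero h1

/-! ### Degrees -/

theorem deg_word {n : ℕ} (hn : 2 ≤ n) (i j k l m : Fin 2)
    (h : [i, j, k, l, m].Perm [0, 0, 0, 1, 1]) :
    g n hn (Fin.castAdd 2 i) * (g n hn (Fin.castAdd 2 j) * (g n hn (Fin.castAdd 2 k) *
      (g n hn (Fin.castAdd 2 l) * g n hn (Fin.castAdd 2 m)))) ∈
      ADeg (n + 2) (Fin.append (dd n) ![0, 0]) := by
  let e : Fin 2 → Fin (n + 2) := fun i => Fin.castAdd 2 ⟨i.val, by omega⟩
  have hg : ∀ i : Fin 2, g n hn (Fin.castAdd 2 i) = X (e i) := by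
    intro i
    have hi : (Fin.castAdd 2 i).val < 2 := i.isLt
    simp only [g, e]
    rw [dif_pos hi]
    rfl
  refine Submodule.subset_span ⟨[i, j, k, l, m].map e, ?_, ?_⟩
  · intro t
    rw [(h.map e).count_eq t]
    refine Fin.addCases (fun t => ?_) (fun t => ?_) t
    · rw [Fin.append_left]
      obtain ⟨t, ht⟩ := t
      simp only [List.map_cons, List.map_nil, List.count_cons, List.count_nil, dd, e, beq_iff_eq,
        Fin.ext_iff, Fin.val_castAdd]
      by_cases h0 : t = 0
      · subst h0; simp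
      · by_cases h1 : t = 1
        · subst h1; simp
        · simp [h0, h1, Ne.symm h0, Ne.symm h1]
    · rw [Fin.append_right]
      have h0 : List.count (Fin.natAdd n t) (List.map e [0, 0, 0, 1, 1]) = 0 := by
        apply List.count_eq_zero_of_not_mem
        intro hm
        obtain ⟨a, -, ha⟩ := List.mem_map.1 hm
        have := congrArg Fin.val ha
        simp only [e, Fin.val_castAdd, Fin.val_natAdd] at this
        omega
      rw [h0]
      fin_cases t <;> rfl
  · simp only [hg]
    simp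

theorem deg_fP {n : ℕ} (hn : 2 ≤ n) :
    ev (g n hn) fP ∈ ADeg (n + 2) (Fin.append (dd n) ![0, 0]) := by
  rw [ev_fP]
  have h := deg_word hn
  have h0 : Fin.castAdd 2 (0 : Fin 2) = (0 : Fin 4) := rfl
  have h1 : Fin.castAdd 2 (1 : Fin 2) = (1 : Fin 4) := rfl
  unfold fE
  refine sub_mem (add_mem (add_mem (sub_mem (sub_mem ?_ ?_) ?_) ?_) ?_) ?_
  · exact h 0 0 1 0 1 (by decide)
  · exact h 0 0 1 1 0 (by decide)
  · exact h 0 1 0 0 1 (by decide)
  · exact h 0 1 1 0 0 (by decide)
  · exact h 1 0 0 1 0 (by decide)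
  · exact h 1 0 1 0 0 (by decide)

/-- For every `n ≥ 2` the operator `D` on `B_4(A_{n+2})` is not injective on the part of multidegree
`(3, 2, 0, …, 0)`: there is a nonzero class of that multidegree which it maps to zero.  So the
statement in question is false.  (The derivation which defines `D` exists and is unique.) -/
theorem result :
    (∀ n : ℕ, Nonempty (Euler n) ∧ Subsingleton (Euler n)) ∧
    (∀ n : ℕ, 2 ≤ n → ∀ δ : Euler n, ∃ x ∈ Part n 4 (dd n), x ≠ 0 ∧ D δ 4 x = 0) ∧
    ¬ Statement := by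
  have main : ∀ n : ℕ, 2 ≤ n → ∀ δ : Euler n, ∃ x ∈ Part n 4 (dd n), x ≠ 0 ∧ D δ 4 x = 0 := by
    intro n hn δ
    have h4 : ev (g n hn) fP ∈ L (n + 2) 4 := by rw [ev_fP]; exact fE_mem _ _
    refine ⟨cls _ _ ⟨_, h4⟩, Submodule.mem_map_of_mem (deg_fP hn), ?_, ?_⟩
    · intro h0
      exact not_mem hn ((Submodule.Quotient.mk_eq_zero (LSub (n + 2) 4)).1 h0)
    · exact (Submodule.Quotient.mk_eq_zero (LSub (n + 2) 4)).2 (image_mem hn δ)
  refine ⟨fun n => ⟨⟨euler n⟩, ⟨euler_unique⟩⟩, main, fun hS => ?_⟩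
  obtain ⟨x, hx, hx0, hD⟩ := main 2 le_rfl (euler 2)
  exact hx0 (hS 4 2 (by norm_num) (by norm_num) (dd 2) (euler 2) hx (zero_mem _)
    (by rw [hD, map_zero]))

end Pool.Agent.Results.MP_540755_al.NotInjective
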